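import Pool.Agent.helper69.AD.GS3

set_option autoImplicit false

namespace AdSBend

open UpperHalfPlane Matrix MatrixGroups

theorem BR2 : BR2_stmt := by
  intro Γ l
  refine ⟨⟨{p | l.w p.1 p.2 ≠ 0}, ?_, ?_, ?_, ?_, ?_⟩, fun p => Iff.rfl⟩
  · intro p hp
    show l.w p.2 p.1 ≠ 0
    rw [l.symm]; exact hp
  · intro γ hγ p hp
    show l.w (γ • p.1) (γ • p.2) ≠ 0
    rw [l.invariant γ hγ]; exact hp
  · intro p hp
    exact l.closed p.1 p.2 hp
  · intro p hp q hq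
    exact l.disjoint p.1 p.2 q.1 q.2 hp hq
  · obtain ⟨s, hs⟩ := l.finite
    exact ⟨s, fun p hp => hs p.1 p.2 hp⟩

end AdSBend
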