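import Pool.Agent.helper69.AD.GS4

set_option autoImplicit false

open scoped MatrixGroups LinearAlgebra.Projectivization
open Matrix UpperHalfPlane

namespace AdSBend

theorem CLD_trc_comm (a b : SL(2, ℝ)) : trc (a * b) = trc (b * a) := by
  unfold trc
  rw [← Matrix.trace_fin_two, ← Matrix.trace_fin_two]
  exact Matrix.trace_mul_comm a.1 b.1

theorem CLD_trc_conj (F D : SL(2, ℝ)) : trc (F * D * F⁻¹) = trc D := by
  rw [CLD_trc_comm, inv_mul_cancel_left]

theorem CLD_trc_neg (g : SL(2, ℝ)) : trc (-g) = -trc g := by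
  unfold trc
  rw [Matrix.SpecialLinearGroup.coe_neg, Matrix.neg_apply, Matrix.neg_apply]
  ring

theorem CLD_trc_Dm (t : ℝ) : trc (Dm t) = 2 * Real.cosh (t / 2) := by
  unfold trc Dm
  rw [Real.cosh_eq]
  simp
  ring

theorem CLD_trc_peq {g h : SL(2, ℝ)} (h1 : PEq g h) : |trc g| = |trc h| := by
  rcases h1 with rfl | rfl
  · rfl
  · rw [CLD_trc_neg, abs_neg]

theorem CLD_neg_smul (g : SL(2, ℝ)) (z : ℍ) : (-g) • z = g • z := by
  apply UpperHalfPlane.ext
  rw [UpperHalfPlane.coe_specialLinearGroup_apply, UpperHalfPlane.coe_specialLinearGroup_apply]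
  have h : ∀ i j, ((-g : SL(2, ℝ)) i j : ℝ) = -(g i j) := by
    intro i j
    rw [Matrix.SpecialLinearGroup.coe_neg]; rfl
  simp only [h, map_neg, Complex.ofReal_neg]
  rw [← neg_div_neg_eq]
  congr 1 <;> ring

theorem CLD_PEq_smul {g h : SL(2, ℝ)} (h1 : PEq g h) (z : ℍ) : g • z = h • z := by
  rcases h1 with rfl | rfl
  · rfl
  · exact CLD_neg_smul _ _

theorem CLD_dist (h5 : PT5_stmt) {t : ℝ} (ht : 0 < t) :
    dist (Dm t • UpperHalfPlane.I) UpperHalfPlane.I = t := by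
  have h1 := h5.2.2 t UpperHalfPlane.I
  have hre : (Dm t • UpperHalfPlane.I : ℍ).re = UpperHalfPlane.I.re := by
    have := congrArg Complex.re h1
    simpa using this
  have him : (Dm t • UpperHalfPlane.I : ℍ).im = Real.exp t := by
    have := congrArg Complex.im h1
    simpa [← Complex.ofReal_exp] using this
  rw [UpperHalfPlane.dist_of_re_eq hre, him, Real.log_exp]
  simp [abs_of_pos ht]

theorem CLD (h8 : BD8_stmt) (h5 : PT5_stmt) (h6 : GM6_stmt) : CLD_stmt := by
  intro Γ hΓ E hE hne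
  obtain ⟨K, hK, hcov⟩ := hΓ.cocompact
  obtain ⟨γ₀, hγ₀⟩ := hne
  set R : ℝ := |trc γ₀| with hR
  have hK' : IsCompact (Metric.cthickening (2 * R) K) := hK.cthickening
  have hfin := hΓ.proper _ hK'
  set T : Set ℝ := insert 2 ((fun g : SL(2, ℝ) => |trc g|) ''
    {γ : SL(2, ℝ) | γ ∈ Γ ∧ ∃ z ∈ Metric.cthickening (2 * R) K, γ • z ∈
      Metric.cthickening (2 * R) K}) with hTdef
  have hT : T.Finite := (hfin.image _).insert 2
  have key : ∀ γ ∈ E, |trc γ| ≤ R → |trc γ| ∈ T := by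
    intro γ hγ hγR
    by_cases h1 : PEq γ 1
    · left
      rw [CLD_trc_peq h1]
      unfold trc
      norm_num
    · right
      obtain ⟨p, hp, -⟩ := h6 Γ hΓ γ (hE γ hγ) h1
      obtain ⟨F, t, -, ht, hPE⟩ := (h8.1 γ p).mp hp
      obtain ⟨δ, hδ, hδz⟩ := hcov (F • UpperHalfPlane.I)
      have htr : |trc γ| = 2 * Real.cosh (t / 2) := by
        rw [CLD_trc_peq hPE, CLD_trc_conj, CLD_trc_Dm, abs_of_pos (by
          have := Real.cosh_pos (t / 2); linarith)]
      have htR : t ≤ 2 * R := by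
        rw [htr] at hγR
        have e1 := Real.add_one_le_exp (t / 2)
        have e2 : Real.exp (t / 2) ≤ 2 * Real.cosh (t / 2) := by
          rw [Real.cosh_eq]
          have := Real.exp_pos (-(t / 2))
          linarith
        linarith
      refine ⟨δ * γ * δ⁻¹, ⟨Γ.mul_mem (Γ.mul_mem hδ (hE γ hγ)) (Γ.inv_mem hδ),
        δ • F • UpperHalfPlane.I, Metric.self_subset_cthickening _ hδz, ?_⟩, ?_⟩
      · apply Metric.mem_cthickening_of_dist_le _ (δ • F • UpperHalfPlane.I) _ _ hδz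
        rw [mul_smul, mul_smul, inv_smul_smul, dist_smul, CLD_PEq_smul hPE, mul_smul, mul_smul,
          inv_smul_smul, dist_smul, CLD_dist h5 ht]
        exact htR
      · show |trc (δ * γ * δ⁻¹)| = |trc γ|
        rw [CLD_trc_conj]
  set U : Set ℝ := {x | ∃ γ ∈ E, |trc γ| = x ∧ x ≤ R} with hU
  have hUfin : U.Finite := by
    refine hT.subset ?_
    rintro x ⟨γ, hγ, rfl, hx⟩
    exact key γ hγ hx
  have hUne : U.Nonempty := ⟨R, γ₀, hγ₀, rfl, le_rfl⟩
  obtain ⟨x, ⟨γ, hγ, hx, hxR⟩, hmin⟩ := Set.exists_min_image U id hUfin hUne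
  refine ⟨γ, hγ, fun δ hδ => ?_⟩
  by_cases h : |trc δ| ≤ R
  · have := hmin _ ⟨δ, hδ, rfl, h⟩
    rw [hx]; exact this
  · rw [hx]
    push Not at h
    linarith

end AdSBend
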