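import Pool.Agent.helper69.AD.GS5

set_option autoImplicit false

open scoped MatrixGroups LinearAlgebra.Projectivization
open Matrix UpperHalfPlane
open Pool.Agent.helper73.AD (PS Arc Word sg AData Family PreFamily Cone bs)

namespace AdSBend

open LeafSystem

theorem FC4_symm {g h : SL(2, ℝ)} (e : PEq g h) : PEq h g := by
  rcases e with e | e
  · exact Or.inl e.symm
  · exact Or.inr (by rw [e, neg_neg])

theorem FC4_trans {g h k : SL(2, ℝ)} (e : PEq g h) (f : PEq h k) : PEq g k := by
  rcases e with rfl | rfl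
  · exact f
  · rcases f with rfl | rfl
    · exact Or.inr rfl
    · exact Or.inl (neg_neg _)

theorem FC4_left (c : SL(2, ℝ)) {g h : SL(2, ℝ)} (e : PEq g h) : PEq (c * g) (c * h) := by
  rcases e with rfl | rfl
  · exact Or.inl rfl
  · exact Or.inr (mul_neg _ _)

theorem FC4_right (c : SL(2, ℝ)) {g h : SL(2, ℝ)} (e : PEq g h) : PEq (g * c) (h * c) := by
  rcases e with rfl | rfl
  · exact Or.inl rfl
  · exact Or.inr (neg_mul _ _)

theorem FC4_cancel {c g h : SL(2, ℝ)} (e : PEq (c * g) (c * h)) : PEq g h := by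
  have := FC4_left c⁻¹ e
  rwa [inv_mul_cancel_left, inv_mul_cancel_left] at this

theorem FC4_per (n : ℕ) (P : ℤ → Prop) (h : ∀ i, P i ↔ P (i + n + 1))
    (hb : ∀ j : Fin (n + 1), P (j.val : ℤ)) (i : ℤ) : P i := by
  have h1 : ∀ (k : ℕ) (i : ℤ), P i ↔ P (i + k * (n + 1)) := by
    intro k
    induction k with
    | zero => intro i; simp
    | succ k ih =>
      intro i
      rw [ih i, h]
      have : i + (k : ℤ) * (n + 1) + n + 1 = i + ((k + 1 : ℕ) : ℤ) * (n + 1) := by
        push_cast; ring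
      rw [this]
  have h2 : ∀ (k : ℤ) (i : ℤ), P i ↔ P (i + k * (n + 1)) := by
    intro k i
    rcases Int.eq_nat_or_neg k with ⟨m, rfl | rfl⟩
    · exact h1 m i
    · have := h1 m (i + -(m : ℤ) * (n + 1))
      rw [this]
      have e : i + -(m : ℤ) * (n + 1) + (m : ℤ) * (n + 1) = i := by ring
      rw [e]
  have hpos : (0 : ℤ) < n + 1 := by positivity
  have h3 := Int.emod_nonneg i hpos.ne'
  have h4 := Int.emod_lt_of_pos i hpos
  have h5 := hb ⟨(i % (n + 1)).toNat, by omega⟩
  have h6 : (((i % (n + 1)).toNat : ℕ) : ℤ) = i % (n + 1) := Int.toNat_of_nonneg h3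
  rw [show ((⟨(i % (n + 1)).toNat, by omega⟩ : Fin (n + 1)).val : ℤ) = i % (n + 1) from h6] at h5
  rw [h2 (i / (n + 1))] at h5
  have h7 : i % (n + 1) + i / (n + 1) * (n + 1) = i := Int.emod_add_ediv_mul i (n + 1)
  rwa [h7] at h5

theorem FC4 (h1 : GM1_stmt) (hA : FA4_stmt) (hB1 : FB1_stmt) (hB4 : FB4_stmt) (hC3 : FC3_stmt) :
    FC4_stmt := by
  intro Γ hΓ S J D l w W r z hl hr hz
  obtain ⟨b1, b2, b3, -, -⟩ := hB1 Γ hΓ S r hr
  have hg : gen Γ l ∈ Γ := (h1 Γ hΓ l hl).1
  choose F hF using fun i => b1 _ _ (W.seamU i)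
  choose G hG using fun i => b1 _ _ (W.seamV i)
  have eF : ∀ i, PEq (F (i + w.n + 1)) (r (gen Γ l) * F i) := by
    intro i
    refine b2 (W.A (i + w.n + 1)) (W.U (i + w.n + 1)) _ _ (W.seamU _) ?_ (hF _)
    rw [W.perA, W.perU]
    exact b3 _ hg _ _ _ (W.seamU i) (hF i)
  have eG : ∀ i, PEq (G (i + w.n + 1)) (r (gen Γ l) * G i) := by
    intro i
    refine b2 (sw (W.A (i + w.n + 1))) (W.V (i + w.n + 1)) _ _ (W.seamV _) ?_ (hG _)
    rw [W.perA, W.perV]
    exact b3 _ hg _ _ _ (W.seamV i) (hG i)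
  have hpos : (0 : ℤ) < w.n + 1 := by positivity
  let idx : ℤ → Fin (w.n + 1) := fun i => ⟨(i % (w.n + 1)).toNat, by
    have h3 := Int.emod_nonneg i hpos.ne'
    have h4 := Int.emod_lt_of_pos i hpos
    omega⟩
  have hidx1 : ∀ i, idx (i + w.n + 1) = idx i := by
    intro i
    apply Fin.ext
    show ((i + w.n + 1) % (w.n + 1)).toNat = (i % (w.n + 1)).toNat
    rw [add_assoc, Int.add_emod_right]
  have hidx2 : ∀ j : Fin (w.n + 1), idx (j.val : ℤ) = j := by
    intro j
    apply Fin.ext
    show ((j.val : ℤ) % (w.n + 1)).toNat = j.val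
    have h3 : (j.val : ℤ) < w.n + 1 := by exact_mod_cast j.2
    rw [Int.emod_eq_of_lt (by positivity) h3, Int.toNat_natCast]
  have hM : ∀ i, arcM (w.A (idx (i + w.n + 1))) z.1 = arcM (w.A (idx i)) z.1 := by
    intro i; rw [hidx1]
  have ht : ∀ i, w.t (idx (i + w.n + 1)) z = w.t (idx i) z := by
    intro i; rw [hidx1]
  have hc : ∀ i, PEq (F i) (G i * Rm * Dm (w.t (idx i) z)) := by
    apply FC4_per w.n
    · intro i
      rw [ht]
      constructor
      · intro h
        refine FC4_trans (eF i) (FC4_trans (FC4_left _ h) ?_)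
        rw [← mul_assoc, ← mul_assoc]
        exact FC4_right _ (FC4_right _ (FC4_symm (eG i)))
      · intro h
        apply FC4_cancel (c := r (gen Γ l))
        refine FC4_trans (FC4_symm (eF i)) (FC4_trans h ?_)
        rw [← mul_assoc, ← mul_assoc]
        exact FC4_right _ (FC4_right _ (eG i))
    · intro j
      rw [hidx2]
      exact W.shift j r z hr hz _ _ (hF _) (hG _)
  have hd : ∀ i, PEq (G (i + 1) * Rm) (F i * arcM (w.A (idx i)) z.1) := by
    apply FC4_per w.n
    · intro i
      rw [hM]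
      have e : i + w.n + 1 + 1 = (i + 1) + w.n + 1 := by ring
      rw [e]
      constructor
      · intro h
        refine FC4_trans (FC4_right _ (eG (i + 1))) ?_
        rw [mul_assoc]
        refine FC4_trans (FC4_left _ h) ?_
        rw [← mul_assoc]
        exact FC4_right _ (FC4_symm (eF i))
      · intro h
        apply FC4_cancel (c := r (gen Γ l))
        rw [← mul_assoc]
        refine FC4_trans (FC4_right _ (FC4_symm (eG (i + 1)))) (FC4_trans h ?_)
        rw [← mul_assoc]
        exact FC4_right _ (eF i)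
    · intro j
      rw [hidx2]
      exact hC3 Γ hΓ S J D r z hr hz _ _ _ _ _ _ _ (W.mem _).1 (W.mem _).1 (W.arc j)
        (hF _) (hG _)
  have hcone := (hB4 Γ hΓ S J D r hr).2.2.1 z hz
  refine ⟨F, G, fun i => arcM (w.A (idx i)) z.1, fun i => w.t (idx i) z, hF, hG, hc, hd, eF,
    hM, ht, ?_, ?_, ?_⟩
  · intro j
    simp only [hidx2]
    exact ⟨trivial, trivial⟩
  · intro i s s'
    have key : ∀ b b', 0 < (arcM (w.A (idx i)) z.1).1 (bi b) (bi b') := by
      intro b b'
      rw [hA J _ _ hcone.1]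
      exact Real.exp_pos _
    fin_cases s <;> fin_cases s'
    · exact key true true
    · exact key true false
    · exact key false true
    · exact key false false
  · intro i
    have tel : ∀ n : ℕ, PEq ((F i)⁻¹ * F (i + n))
        (cp (fun i => arcM (w.A (idx i)) z.1) (fun i => w.t (idx i) z) i n) := by
      intro n
      induction n with
      | zero =>
        show PEq ((F i)⁻¹ * F (i + (0 : ℕ))) 1
        left
        simp
      | succ n ih =>
        show PEq ((F i)⁻¹ * F (i + (n + 1 : ℕ))) (cp _ _ i n *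
          (arcM (w.A (idx (i + n))) z.1 * Dm (w.t (idx (i + n + 1)) z)))
        have e : i + ((n + 1 : ℕ) : ℤ) = i + n + 1 := by push_cast; ring
        rw [e]
        refine FC4_trans ?_ (FC4_right _ ih)
        rw [mul_assoc]
        apply FC4_left
        refine FC4_trans (hc (i + n + 1)) ?_
        rw [← mul_assoc]
        exact FC4_right _ (hd (i + n))
    have h := tel (w.n + 1)
    refine FC4_trans ?_ h
    rw [mul_assoc]
    apply FC4_left
    have e : i + ((w.n + 1 : ℕ) : ℤ) = i + w.n + 1 := by push_cast; ring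
    rw [e]
    exact FC4_symm (eF i)

end AdSBend
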