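import Pool.Agent.helper69.AD.GS5

set_option autoImplicit false

open scoped MatrixGroups LinearAlgebra.Projectivization
open Matrix UpperHalfPlane

namespace AdSBend

theorem FC6_mul (g h : SL(2, ℝ)) (i j : Fin 2) :
    (g * h).1 i j = g.1 i 0 * h.1 0 j + g.1 i 1 * h.1 1 j := by
  rw [Matrix.SpecialLinearGroup.coe_mul, Matrix.mul_apply, Fin.sum_univ_two]

theorem FC6_pos_mul {g h : SL(2, ℝ)} (hg : PosMat g) (hh : PosMat h) : PosMat (g * h) := by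
  intro i j
  rw [FC6_mul]
  have h1 := mul_pos (hg i 0) (hh 0 j)
  have h2 := mul_pos (hg i 1) (hh 1 j)
  linarith

theorem FC6_D00 (t : ℝ) : (Dm t).1 0 0 = Real.exp (t / 2) := by simp [Dm]
theorem FC6_D01 (t : ℝ) : (Dm t).1 0 1 = 0 := by simp [Dm]
theorem FC6_D10 (t : ℝ) : (Dm t).1 1 0 = 0 := by simp [Dm]
theorem FC6_D11 (t : ℝ) : (Dm t).1 1 1 = Real.exp (-(t / 2)) := by simp [Dm]

theorem FC6_mul_Dm {g : SL(2, ℝ)} (t : ℝ) (hg : PosMat g) : PosMat (g * Dm t) := by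
  intro i j
  rw [FC6_mul]
  fin_cases j
  · show 0 < g.1 i 0 * (Dm t).1 0 0 + g.1 i 1 * (Dm t).1 1 0
    rw [FC6_D00, FC6_D10, mul_zero, add_zero]
    exact mul_pos (hg i 0) (Real.exp_pos _)
  · show 0 < g.1 i 0 * (Dm t).1 0 1 + g.1 i 1 * (Dm t).1 1 1
    rw [FC6_D01, FC6_D11, mul_zero, zero_add]
    exact mul_pos (hg i 1) (Real.exp_pos _)

theorem FC6_Dm_mul {g : SL(2, ℝ)} (t : ℝ) (hg : PosMat g) : PosMat (Dm t * g) := by
  intro i j
  rw [FC6_mul]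
  fin_cases i
  · show 0 < (Dm t).1 0 0 * g.1 0 j + (Dm t).1 0 1 * g.1 1 j
    rw [FC6_D00, FC6_D01, zero_mul, add_zero]
    exact mul_pos (Real.exp_pos _) (hg 0 j)
  · show 0 < (Dm t).1 1 0 * g.1 0 j + (Dm t).1 1 1 * g.1 1 j
    rw [FC6_D10, FC6_D11, zero_mul, zero_add]
    exact mul_pos (Real.exp_pos _) (hg 1 j)

theorem FC6_trc (g : SL(2, ℝ)) (hg : PosMat g) : 2 < trc g := by
  have hdet := g.2
  rw [Matrix.det_fin_two] at hdet
  have h00 := hg 0 0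
  have h01 := hg 0 1
  have h10 := hg 1 0
  have h11 := hg 1 1
  unfold trc
  have h1 := mul_pos h01 h10
  nlinarith [sq_nonneg (g.1 0 0 - g.1 1 1)]

theorem FC6 : FC6_stmt := by
  refine ⟨fun g h hg hh => FC6_pos_mul hg hh, FC6_trc,
    fun g t hg => ⟨FC6_mul_Dm t hg, FC6_Dm_mul t hg⟩, ?_⟩
  intro R t m n hR
  induction n with
  | zero =>
    show PosMat (1 * (R (m + (0 : ℕ)) * Dm (t (m + (0 : ℕ) + 1))))
    rw [one_mul]
    exact FC6_mul_Dm _ (hR _)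
  | succ n ih =>
    show PosMat (cp R t m (n + 1) * (R (m + (n + 1 : ℕ)) * Dm (t (m + (n + 1 : ℕ) + 1))))
    exact FC6_pos_mul ih (FC6_mul_Dm _ (hR _))

end AdSBend
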